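import Mathlib

/-!
# Central binomial coefficients

Induction with `Nat.succ_mul_centralBinom_succ`: with `b = centralBinom n`, `b' = centralBinom (n + 1)`,
`(n + 1) b' = 2 (2 n + 1) b`, so `(n + 1)^2 (3 n + 4) b'^2 = 4 (2 n + 1)^2 (3 n + 4) b^2` and
`4 (2 n + 1)^2 (3 n + 4) ≤ 16 (n + 1)^2 (3 n + 1)`.
-/

namespace Pool.Agent.SN

theorem central_le (n : ℕ) : (3 * n + 1) * Nat.centralBinom n ^ 2 ≤ 16 ^ n := by
  induction n with
  | zero => simp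
  | succ n ih =>
    have h1 := Nat.succ_mul_centralBinom_succ n
    set b := Nat.centralBinom n with hb
    set b' := Nat.centralBinom (n + 1) with hb'
    have h2 : 4 * (2 * n + 1) ^ 2 * (3 * n + 4) ≤ 16 * (n + 1) ^ 2 * (3 * n + 1) := by
      nlinarith
    have h3 : (n + 1) ^ 2 * ((3 * n + 4) * b' ^ 2) ≤ (n + 1) ^ 2 * 16 ^ (n + 1) := by
      calc (n + 1) ^ 2 * ((3 * n + 4) * b' ^ 2) = ((n + 1) * b') ^ 2 * (3 * n + 4) := by ring
        _ = (2 * (2 * n + 1) * b) ^ 2 * (3 * n + 4) := by rw [h1]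
        _ = 4 * (2 * n + 1) ^ 2 * (3 * n + 4) * b ^ 2 := by ring
        _ ≤ 16 * (n + 1) ^ 2 * (3 * n + 1) * b ^ 2 := Nat.mul_le_mul_right _ h2
        _ = 16 * (n + 1) ^ 2 * ((3 * n + 1) * b ^ 2) := by ring
        _ ≤ 16 * (n + 1) ^ 2 * 16 ^ n := Nat.mul_le_mul_left _ ih
        _ = (n + 1) ^ 2 * 16 ^ (n + 1) := by ring
    have h4 := Nat.le_of_mul_le_mul_left h3 (by positivity)
    calc (3 * (n + 1) + 1) * b' ^ 2 = (3 * n + 4) * b' ^ 2 := by ring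
      _ ≤ 16 ^ (n + 1) := h4

end Pool.Agent.SN
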