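import Mathlib

/-!
# Pairs of bit strings with the same number of ones

The number of bit strings `x : Fin t → Bool` with `k` ones is `t.choose k` (`Finset.card_powersetCard`, bit strings =
subsets), and `∑ k ∈ range (t + 1), t.choose k ^ 2 = (2 * t).choose t` (`Nat.sum_range_choose_sq...`, Vandermonde
`Nat.add_choose_eq`).
-/

namespace Pool.Agent.SN

/-- The number of ones. -/
def ones {t : ℕ} (x : Fin t → Bool) : ℕ := (Finset.univ.filter fun i => x i = true).card

private theorem Bit_card_ones (t k : ℕ) :
    (Finset.univ.filter fun x : Fin t → Bool => ones x = k).card = t.choose k := by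
  have h : (Finset.powersetCard k (Finset.univ : Finset (Fin t))).card = t.choose k := by
    rw [Finset.card_powersetCard, Finset.card_univ, Fintype.card_fin]
  rw [← h]
  refine Finset.card_bij (fun x _ => Finset.univ.filter fun i => x i = true) ?_ ?_ ?_
  · intro x hx
    rw [Finset.mem_filter] at hx
    rw [Finset.mem_powersetCard]
    exact ⟨Finset.subset_univ _, hx.2⟩
  · intro x _ y _ hxy
    funext i
    have := congrArg (fun s => decide (i ∈ s)) hxy
    simpa using this
  · intro s hs
    rw [Finset.mem_powersetCard] at hs
    refine ⟨fun i => decide (i ∈ s), ?_, ?_⟩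
    · rw [Finset.mem_filter]
      refine ⟨Finset.mem_univ _, ?_⟩
      unfold ones
      simpa using hs.2
    · ext i
      simp

theorem bit_card (t : ℕ) :
    (Finset.univ.filter fun p : (Fin t → Bool) × (Fin t → Bool) => ones p.1 = ones p.2).card =
      Nat.centralBinom t := by
  rw [Nat.centralBinom_eq_two_mul_choose, ← Nat.sum_range_choose_sq]
  rw [Finset.card_eq_sum_card_fiberwise (f := fun p : (Fin t → Bool) × (Fin t → Bool) => ones p.1)
    (t := Finset.range (t + 1))]
  · refine Finset.sum_congr rfl fun k _ => ?_
    rw [sq, ← Bit_card_ones t k, ← Finset.card_product]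
    congr 1
    ext ⟨x, y⟩
    simp only [Finset.mem_filter, Finset.mem_univ, true_and, Finset.mem_product]
    constructor
    · rintro ⟨h1, h2⟩
      exact ⟨h2, h1 ▸ h2⟩
    · rintro ⟨h1, h2⟩
      exact ⟨h1.trans h2.symm, h1⟩
  · intro p _
    simp only [Finset.coe_range, Set.mem_Iio]
    have : ones p.1 ≤ t := by
      unfold ones
      exact (Finset.card_le_univ _).trans (by simp)
    omega

end Pool.Agent.SN
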