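import Pool.Agent.H.MP_53e59f_lc.SN.Four
import Pool.Agent.H.MP_53e59f_lc.SN.Bin

/-!
# The number of returning lists, second form

From `RT_le` and `central_le` (black boxes): `s = 16 r`, `((3 t + 1) * centralBinom t ^ 2) ^ 2 ≤ (16 ^ t) ^ 2` and
`(s ^ 2) ^ t = (16 ^ t) ^ 2 * (r ^ t * r ^ t)`.
-/

namespace Pool.Agent.SN

theorem RT_card {s : ℕ} (hs : 16 ∣ s) (t : ℕ) :
    (RT s t).ncard * (3 * t + 1) ^ 2 ≤ (s ^ 2) ^ t := by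
  obtain ⟨r, hr⟩ := hs
  have h1 := RT_le hr t
  have h2 := central_le t
  have h3 : ((3 * t + 1) * Nat.centralBinom t ^ 2) ^ 2 ≤ (16 ^ t) ^ 2 := Nat.pow_le_pow_left h2 2
  have h4 : (s ^ 2) ^ t = (16 ^ t) ^ 2 * (r ^ t * r ^ t) := by
    rw [hr, mul_pow, mul_pow, ← pow_mul, ← pow_mul, ← pow_mul, ← pow_add, mul_comm 2 t, ← two_mul,
      mul_comm 2 t]
  rw [h4]
  calc (RT s t).ncard * (3 * t + 1) ^ 2
      ≤ (Nat.centralBinom t ^ 4 * (r ^ t * r ^ t)) * (3 * t + 1) ^ 2 := Nat.mul_le_mul_right _ h1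
    _ = ((3 * t + 1) * Nat.centralBinom t ^ 2) ^ 2 * (r ^ t * r ^ t) := by ring
    _ ≤ (16 ^ t) ^ 2 * (r ^ t * r ^ t) := Nat.mul_le_mul_right _ h3

end Pool.Agent.SN
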