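import Mathlib

/-!
# A telescoping bound

`1 / (3 t + 1)^2 ≤ (1/3) (1 / (3 t - 2) - 1 / (3 t + 1))` for `t ≥ 1`; by induction
`∑ t ∈ Icc 1 L, 1 / (3 t + 1)^2 ≤ (1/3) (1 - 1 / (3 L + 1))`.
-/

namespace Pool.Agent.SN

private theorem Tele_aux (L : ℕ) : ∑ t ∈ Finset.Icc 1 L, (1 : ℚ) / (3 * t + 1) ^ 2 ≤
    (1 : ℚ) / 3 * (1 - 1 / (3 * (L : ℚ) + 1)) := by
  induction L with
  | zero => simp
  | succ L ih =>
    rw [Finset.sum_Icc_succ_top (by omega)]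
    push_cast
    have h1 : (0 : ℚ) < 3 * (L : ℚ) + 1 := by positivity
    have h2 : (0 : ℚ) < 3 * ((L : ℚ) + 1) + 1 := by positivity
    have h3 : (1 : ℚ) / (3 * ((L : ℚ) + 1) + 1) ^ 2 ≤ 1 / 3 * (1 / (3 * (L : ℚ) + 1) - 1 / (3 * ((L : ℚ) + 1) + 1)) := by
      have h4 : (1 : ℚ) / 3 * (1 / (3 * (L : ℚ) + 1) - 1 / (3 * (L + 1) + 1)) =
          1 / ((3 * L + 1) * (3 * (L + 1) + 1)) := by
        field_simp
        ring
      rw [h4]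
      apply one_div_le_one_div_of_le (by positivity)
      nlinarith
    linarith

theorem tele (L : ℕ) : ∑ t ∈ Finset.Icc 1 L, (1 : ℚ) / (3 * t + 1) ^ 2 ≤ 1 / 3 := by
  have h1 := Tele_aux L
  have h2 : (0 : ℚ) < 1 / (3 * (L : ℚ) + 1) := by positivity
  linarith

end Pool.Agent.SN
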