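import Pool.Agent.H.MP_53e59f_lc.SN.Win
import Pool.Agent.H.MP_53e59f_lc.SN.Sum

/-!
# One position

For `i ≤ n`, `j ≤ m` let `L = min (n - i) j`. A pair `(u, v)` with lengths `n`, `m` and `K ≤ R (zw u v i j)` is the image of
`(u1, u2, v1, v2, z)` with `u1 ∈ W i`, `u2 ∈ W (n - i - L)`, `v1 ∈ W (j - L)`, `v2 ∈ W (m - j)`, `z = zw u v i j ∈ C s L K` under
`(u1 ++ z.map fst ++ u2, v1 ++ (z.map snd).reverse ++ v2)`. So their number is at most
`s^i * s^(n-i-L) * s^(j-L) * s^(m-j) * (C s L K).ncard`, and `3 ^ K` times it is at most `s ^ (n + m)` by `C_card`.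
-/

namespace Pool.Agent.SN

private theorem Cov_fst {α β : Type} (l₁ : List α) : ∀ l₂ : List β,
    (l₁.zip l₂).map Prod.fst = l₁.take l₂.length := by
  induction l₁ with
  | nil => intro l₂; simp
  | cons a l ih =>
    intro l₂
    cases l₂ with
    | nil => simp
    | cons b l' => simp [ih l']

private theorem Cov_snd {α β : Type} (l₁ : List α) : ∀ l₂ : List β,
    (l₁.zip l₂).map Prod.snd = l₂.take l₁.length := by
  induction l₁ with
  | nil => intro l₂; simp
  | cons a l ih =>
    intro l₂
    cases l₂ with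
    | nil => simp
    | cons b l' => simp [ih l']

/-- The data of a pair at the position `(i, j)`. -/
private def Cov_phi {α : Type} (n i j : ℕ) (p : List α × List α) :
    List α × List α × List α × List α × List (α × α) :=
  (p.1.take i, p.1.drop (i + j), (p.2.take j).reverse.drop (n - i), p.2.drop j, zw p.1 p.2 i j)

private theorem Cov_inj {α : Type} {n m i j : ℕ} (hj : j ≤ m) {p q : List α × List α}
    (hp1 : p.1.length = n) (hp2 : p.2.length = m) (hq1 : q.1.length = n) (hq2 : q.2.length = m)
    (h : Cov_phi n i j p = Cov_phi n i j q) : p = q := by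
  unfold Cov_phi at h
  rw [Prod.mk.injEq, Prod.mk.injEq, Prod.mk.injEq, Prod.mk.injEq] at h
  obtain ⟨h1, h2, h3, h4, h5⟩ := h
  have h6 := congrArg (List.map Prod.fst) h5
  have h7 := congrArg (List.map Prod.snd) h5
  unfold zw at h6 h7
  rw [Cov_fst, Cov_fst, List.length_reverse, List.length_reverse, List.length_take,
    List.length_take, hp2, hq2, min_eq_left hj] at h6
  rw [Cov_snd, Cov_snd, List.length_drop, List.length_drop, hp1, hq1] at h7
  have hu : p.1 = q.1 := by
    rw [← List.take_append_drop i p.1, ← List.take_append_drop i q.1, h1,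
      ← List.take_append_drop j (p.1.drop i), ← List.take_append_drop j (q.1.drop i), h6,
      List.drop_drop, List.drop_drop, h2]
  have hv0 : (p.2.take j).reverse = (q.2.take j).reverse := by
    rw [← List.take_append_drop (n - i) (p.2.take j).reverse,
      ← List.take_append_drop (n - i) (q.2.take j).reverse, h7, h3]
  have hv : p.2 = q.2 := by
    rw [← List.take_append_drop j p.2, ← List.take_append_drop j q.2, h4,
      List.reverse_injective hv0]
  exact Prod.ext hu hv

theorem one_pos {s : ℕ} (hs : 16 ∣ s) {n m i j K : ℕ} (hi : i ≤ n) (hj : j ≤ m) :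
    3 ^ K * {p : List (Fin s) × List (Fin s) | p.1.length = n ∧ p.2.length = m ∧
      K ≤ R (zw p.1 p.2 i j)}.ncard ≤ s ^ (n + m) := by
  set S : Set (List (Fin s) × List (Fin s)) := {p | p.1.length = n ∧ p.2.length = m ∧
      K ≤ R (zw p.1 p.2 i j)} with hS
  set L := min (n - i) j with hL
  set T : Set (List (Fin s) × List (Fin s) × List (Fin s) × List (Fin s) × List (Fin s × Fin s)) :=
    W (Fin s) i ×ˢ W (Fin s) (n - (i + j)) ×ˢ W (Fin s) (j - (n - i)) ×ˢ W (Fin s) (m - j) ×ˢ
      C s L K with hT
  have hfin : T.Finite := (W_fin _ _).prod ((W_fin _ _).prod ((W_fin _ _).prod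
    ((W_fin _ _).prod (C_fin s L K))))
  have hle : S.ncard ≤ T.ncard := by
    refine Set.ncard_le_ncard_of_injOn (Cov_phi n i j) ?_ ?_ hfin
    · rintro p ⟨h1, h2, h3⟩
      refine ⟨?_, ?_, ?_, ?_, ?_, h3⟩
      · change (p.1.take i).length = i
        rw [List.length_take, h1, min_eq_left hi]
      · change (p.1.drop (i + j)).length = n - (i + j)
        rw [List.length_drop, h1]
      · change ((p.2.take j).reverse.drop (n - i)).length = j - (n - i)
        rw [List.length_drop, List.length_reverse, List.length_take, h2, min_eq_left hj]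
      · change (p.2.drop j).length = m - j
        rw [List.length_drop, h2]
      · change (zw p.1 p.2 i j).length = L
        unfold zw
        rw [List.length_zip, List.length_drop, List.length_reverse, List.length_take, h1, h2,
          min_eq_left hj]
    · rintro p ⟨h1, h2, -⟩ q ⟨g1, g2, -⟩ h
      exact Cov_inj hj h1 h2 g1 g2 h
  have hTc : T.ncard = s ^ i * (s ^ (n - (i + j)) * (s ^ (j - (n - i)) * (s ^ (m - j) *
      (C s L K).ncard))) := by
    rw [hT, Set.ncard_prod, Set.ncard_prod, Set.ncard_prod, Set.ncard_prod, W_card, W_card, W_card,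
      W_card, Nat.card_eq_fintype_card, Fintype.card_fin]
  have hC := C_card hs K L
  have hexp : s ^ i * (s ^ (n - (i + j)) * (s ^ (j - (n - i)) * (s ^ (m - j) * (s ^ 2) ^ L))) =
      s ^ (n + m) := by
    rw [← pow_mul, ← pow_add, ← pow_add, ← pow_add, ← pow_add]
    congr 1
    omega
  calc 3 ^ K * S.ncard ≤ 3 ^ K * T.ncard := Nat.mul_le_mul_left _ hle
    _ = s ^ i * (s ^ (n - (i + j)) * (s ^ (j - (n - i)) * (s ^ (m - j) *
        (3 ^ K * (C s L K).ncard)))) := by rw [hTc]; ring
    _ ≤ s ^ i * (s ^ (n - (i + j)) * (s ^ (j - (n - i)) * (s ^ (m - j) * (s ^ 2) ^ L))) := by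
        gcongr
    _ = s ^ (n + m) := hexp

end Pool.Agent.SN
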