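import Pool.Agent.H.MP_53e59f_lc.SN.Win2
import Pool.Agent.H.MP_53e59f_lc.SN.Cov

/-!
# The number of bad pairs of words

By `exists_win`, `Bad s n m K` is contained in the union over `(i, j) ∈ range (n + 1) ×ˢ range (m + 1)` of the sets of
`one_pos`; union bound.
-/

namespace Pool.Agent.SN

theorem Bad_fin (s n m K : ℕ) : (Bad s n m K).Finite :=
  ((W_fin (Fin s) n).prod (W_fin (Fin s) m)).subset fun _ h => ⟨h.1, h.2.1⟩

theorem Bad_card {s : ℕ} (hs : 16 ∣ s) (n m K : ℕ) :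
    3 ^ K * (Bad s n m K).ncard ≤ (n + 1) * (m + 1) * s ^ (n + m) := by
  have hfin : ∀ q : ℕ × ℕ, {p : List (Fin s) × List (Fin s) | p.1.length = n ∧ p.2.length = m ∧
      K ≤ R (zw p.1 p.2 q.1 q.2)}.Finite := fun q =>
    ((W_fin (Fin s) n).prod (W_fin (Fin s) m)).subset fun _ h => ⟨h.1, h.2.1⟩
  have hsub : Bad s n m K ⊆ ⋃ q ∈ Finset.range (n + 1) ×ˢ Finset.range (m + 1),
      {p : List (Fin s) × List (Fin s) | p.1.length = n ∧ p.2.length = m ∧
        K ≤ R (zw p.1 p.2 q.1 q.2)} := by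
    rintro p ⟨h1, h2, i, j, h3⟩
    obtain ⟨i0, j0, h4, h5, h6⟩ := exists_win h3
    refine Set.mem_biUnion (x := (i0, j0)) ?_ ⟨h1, h2, h6⟩
    refine Finset.mem_coe.2 (Finset.mem_product.2 ⟨Finset.mem_range.2 ?_, Finset.mem_range.2 ?_⟩)
    · show i0 < n + 1
      omega
    · show j0 < m + 1
      omega
  have hfinU : (⋃ q ∈ Finset.range (n + 1) ×ˢ Finset.range (m + 1),
      {p : List (Fin s) × List (Fin s) | p.1.length = n ∧ p.2.length = m ∧
        K ≤ R (zw p.1 p.2 q.1 q.2)}).Finite :=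
    (Finset.finite_toSet _).biUnion fun q _ => hfin q
  have h1 : (Bad s n m K).ncard ≤ ∑ q ∈ Finset.range (n + 1) ×ˢ Finset.range (m + 1),
      {p : List (Fin s) × List (Fin s) | p.1.length = n ∧ p.2.length = m ∧
        K ≤ R (zw p.1 p.2 q.1 q.2)}.ncard :=
    (Set.ncard_le_ncard hsub hfinU).trans (Finset.set_ncard_biUnion_le _ _)
  calc 3 ^ K * (Bad s n m K).ncard ≤ 3 ^ K * ∑ q ∈ Finset.range (n + 1) ×ˢ Finset.range (m + 1),
      {p : List (Fin s) × List (Fin s) | p.1.length = n ∧ p.2.length = m ∧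
        K ≤ R (zw p.1 p.2 q.1 q.2)}.ncard := Nat.mul_le_mul_left _ h1
    _ = ∑ q ∈ Finset.range (n + 1) ×ˢ Finset.range (m + 1),
      3 ^ K * {p : List (Fin s) × List (Fin s) | p.1.length = n ∧ p.2.length = m ∧
        K ≤ R (zw p.1 p.2 q.1 q.2)}.ncard := Finset.mul_sum _ _ _
    _ ≤ ∑ q ∈ Finset.range (n + 1) ×ˢ Finset.range (m + 1), s ^ (n + m) := by
      refine Finset.sum_le_sum fun q hq => ?_
      obtain ⟨h2, h3⟩ := Finset.mem_product.1 hq
      rw [Finset.mem_range] at h2 h3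
      exact one_pos hs (Nat.le_of_lt_succ h2) (Nat.le_of_lt_succ h3)
    _ = (n + 1) * (m + 1) * s ^ (n + m) := by
      rw [Finset.sum_const, Finset.card_product, Finset.card_range, Finset.card_range,
        smul_eq_mul]

end Pool.Agent.SN
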