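import Pool.Agent.H.MP_53e59f_lc.SM.Defs

/-!
# Returning lists of pairs
-/

namespace Pool.Agent.SN

/-- The two words of a list of pairs are permutations of each other. -/
def Ret {α : Type} (z : List (α × α)) : Prop := (z.map Prod.fst).Perm (z.map Prod.snd)

open Classical in
/-- The number of `t` with `1 ≤ t ≤ |z|` such that the first `t` pairs return. -/
noncomputable def R {α : Type} (z : List (α × α)) : ℕ :=
  ((Finset.Icc 1 z.length).filter fun t => Ret (z.take t)).card

/-- The lists of pairs of length `L` with at least `K` returns. -/
def C (s L K : ℕ) : Set (List (Fin s × Fin s)) := {z | z.length = L ∧ K ≤ R z}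

/-- The returning lists of length `t`. -/
def RT (s t : ℕ) : Set (List (Fin s × Fin s)) := {z | z.length = t ∧ Ret z}

/-- The lists of length `n`. -/
def W (α : Type) (n : ℕ) : Set (List α) := {w | w.length = n}

/-- The pairs of words of lengths `n`, `m` for which some joint content is attained more than `K`
times. -/
def Bad (s n m K : ℕ) : Set (List (Fin s) × List (Fin s)) :=
  {p | p.1.length = n ∧ p.2.length = m ∧ ∃ i j, K + 1 ≤ (SM.Same p.1 p.2 i j).ncard}

end Pool.Agent.SN
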