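import Pool.Agent.H.MP_53e59f_lc.SF.Defs

/-!
# The length of the code

`Inst.encode` writes a list `l` as `1 a 1 b ... 0` (each element gives at least 2 bits... ) and the two lists `x.u`, `x.v` are part
of the code. Unfold `Inst.encode`, `Inst.dat` and the encoders.
-/

namespace Pool.Agent.SN

open Pool.Agent.SF

open Pool.Agent.H.MP_5be563_lc.PT in
private theorem Enc_list {α : Type} [Enc α] (l : List α) : 2 * l.length + 1 ≤ (encList l).size := by
  induction l with
  | nil => simp [encList, D.size]
  | cons a l ih =>
    have h := (enc a).size_pos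
    simp only [encList, D.size, List.length_cons]
    omega

open Pool.Agent.H.MP_5be563_lc.PT in
private theorem Enc_dat (s : ℕ) (t : List (List ℕ)) (q : ℕ) (b : List Bool) (u v : List ℕ) :
    2 * (u.length + v.length) + 2 ≤ (enc ((s, t, q, b, u, v) : Dat)).bits.length := by
  have h1 := Enc_list u
  have h2 := Enc_list v
  have h3 : (enc ((s, t, q, b, u, v) : Dat)).size =
      (enc s).size + ((enc t).size + ((enc q).size + ((enc b).size +
        ((encList u).size + (encList v).size + 1) + 1) + 1) + 1) + 1 := rfl
  rw [D.bits_length, h3]
  omega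

/-- The length of the code. -/
theorem enc_le (x : Inst) : 2 * (x.u.length + x.v.length) + 2 ≤ x.encode.length := by
  have h := Enc_dat x.dat.1 x.dat.2.1 x.dat.2.2.1 x.dat.2.2.2.1 (x.u.map Fin.val)
    (x.v.map Fin.val)
  rw [List.length_map, List.length_map] at h
  exact h

end Pool.Agent.SN
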