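import Pool.Agent.H.MP_53e59f_lc.SN.Cov2

/-!
# The final count

From `Bad_card` (black box). With `N = n + m + 1`, `K ≥ 2 * log 2 (2 N) = 2 * log 2 N + 2`, `N ≤ 2 ^ (log 2 N + 1)`, so
`N ^ 3 ≤ 8 ^ (log 2 N + 1) ≤ 9 ^ (log 2 N + 1) = 3 ^ (2 log 2 N + 2) ≤ 3 ^ K`, and `(n + 1) (m + 1) ≤ N ^ 2`. Then
`N^3 * Bad * N ≤ 3^K * Bad * N ≤ (n+1)(m+1) s^(n+m) N ≤ N^3 * s^(n+m)`; cancel `N ^ 3`.
-/

namespace Pool.Agent.SN

theorem few {s n m K : ℕ} (hK : 2 * Nat.log 2 (2 * (n + m) + 2) ≤ K) (hs : 16 ∣ s) :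
    (Bad s n m K).ncard * (n + m + 1) ≤ s ^ (n + m) := by
  have h1 := Bad_card hs n m K
  have h2 : (n + m + 1) < 2 ^ (Nat.log 2 (n + m + 1) + 1) :=
    Nat.lt_pow_succ_log_self (by norm_num) _
  have h3 : Nat.log 2 (2 * (n + m) + 2) = Nat.log 2 (n + m + 1) + 1 := by
    rw [show 2 * (n + m) + 2 = (n + m + 1) * 2 by ring]
    exact Nat.log_mul_base (by norm_num) (by omega)
  rw [h3] at hK
  have h4 : (n + m + 1) ^ 3 ≤ 3 ^ K := by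
    calc (n + m + 1) ^ 3 ≤ (2 ^ (Nat.log 2 (n + m + 1) + 1)) ^ 3 := Nat.pow_le_pow_left h2.le 3
      _ = (2 ^ 3) ^ (Nat.log 2 (n + m + 1) + 1) := by rw [← pow_mul, ← pow_mul, mul_comm]
      _ ≤ (3 ^ 2) ^ (Nat.log 2 (n + m + 1) + 1) := Nat.pow_le_pow_left (by norm_num) _
      _ = 3 ^ (2 * (Nat.log 2 (n + m + 1) + 1)) := by rw [← pow_mul]
      _ ≤ 3 ^ K := Nat.pow_le_pow_right (by norm_num) hK
  have h5 : (n + 1) * (m + 1) * (n + m + 1) ≤ (n + m + 1) ^ 3 := by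
    calc (n + 1) * (m + 1) * (n + m + 1) ≤ (n + m + 1) * (n + m + 1) * (n + m + 1) :=
          Nat.mul_le_mul_right _ (Nat.mul_le_mul (by omega) (by omega))
      _ = (n + m + 1) ^ 3 := by ring
  have h6 : 3 ^ K * ((Bad s n m K).ncard * (n + m + 1)) ≤ 3 ^ K * s ^ (n + m) := by
    calc 3 ^ K * ((Bad s n m K).ncard * (n + m + 1))
        = (3 ^ K * (Bad s n m K).ncard) * (n + m + 1) := by ring
      _ ≤ ((n + 1) * (m + 1) * s ^ (n + m)) * (n + m + 1) := Nat.mul_le_mul_right _ h1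
      _ = ((n + 1) * (m + 1) * (n + m + 1)) * s ^ (n + m) := by ring
      _ ≤ 3 ^ K * s ^ (n + m) := Nat.mul_le_mul_right _ (h5.trans h4)
  exact Nat.le_of_mul_le_mul_left h6 (by positivity)

end Pool.Agent.SN
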