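import Pool.Agent.H.MP_53e59f_lc.SN.Cov2

/-!
# The final count, for every power

From `Bad_card`. With `N = n + m + 1` and `K ≥ c * log 2 (2 N)`, `c ≥ 2`: `N ^ (c + 1) ≤ 3 ^ K`.
-/

namespace Pool.Agent.SN

theorem Few2_pow {c : ℕ} (hc : 2 ≤ c) : 2 ^ (c + 1) ≤ 3 ^ c := by
  induction c, hc using Nat.le_induction with
  | base => norm_num
  | succ n _ ih =>
    have h1 : 2 ^ (n + 1 + 1) = 2 * 2 ^ (n + 1) := by ring
    have h2 : 3 ^ (n + 1) = 3 * 3 ^ n := by ring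
    omega

theorem few2 {s n m K c : ℕ} (hc : 2 ≤ c) (hK : c * Nat.log 2 (2 * (n + m) + 2) ≤ K)
    (hs : 16 ∣ s) : (Bad s n m K).ncard * (n + m + 1) ^ (c - 1) ≤ s ^ (n + m) := by
  obtain ⟨N, hN⟩ : ∃ N, N = n + m + 1 := ⟨_, rfl⟩
  have hN0 : 0 < N := by omega
  have h1 : Nat.log 2 (2 * (n + m) + 2) = Nat.log 2 N + 1 := by
    have h2 : 2 * (n + m) + 2 = N * 2 := by omega
    rw [h2, Nat.log_mul_base (by norm_num) (by omega)]
  have h3 : N ≤ 2 ^ (Nat.log 2 N + 1) := (Nat.lt_pow_succ_log_self (by norm_num) N).le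
  have h4 : N ^ (c + 1) ≤ 3 ^ K := by
    calc N ^ (c + 1) ≤ (2 ^ (Nat.log 2 N + 1)) ^ (c + 1) := Nat.pow_le_pow_left h3 _
      _ = (2 ^ (c + 1)) ^ (Nat.log 2 N + 1) := by rw [← pow_mul, ← pow_mul, mul_comm]
      _ ≤ (3 ^ c) ^ (Nat.log 2 N + 1) := Nat.pow_le_pow_left (Few2_pow hc) _
      _ = 3 ^ (c * (Nat.log 2 N + 1)) := by rw [← pow_mul]
      _ ≤ 3 ^ K := Nat.pow_le_pow_right (by norm_num) (by rw [← h1]; exact hK)
  have h5 := Bad_card hs n m K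
  have h6 : (n + 1) * (m + 1) ≤ N ^ 2 := by
    rw [pow_two]
    exact Nat.mul_le_mul (by omega) (by omega)
  have h7 : N ^ (c + 1) = N ^ 2 * N ^ (c - 1) := by
    rw [← pow_add]
    congr 1
    omega
  rw [← hN]
  have h8 : N ^ 2 * ((Bad s n m K).ncard * N ^ (c - 1)) ≤ N ^ 2 * s ^ (n + m) := by
    calc N ^ 2 * ((Bad s n m K).ncard * N ^ (c - 1)) = N ^ (c + 1) * (Bad s n m K).ncard := by
          rw [h7]; ring
      _ ≤ 3 ^ K * (Bad s n m K).ncard := Nat.mul_le_mul_right _ h4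
      _ ≤ (n + 1) * (m + 1) * s ^ (n + m) := h5
      _ ≤ N ^ 2 * s ^ (n + m) := Nat.mul_le_mul_right _ h6
  exact Nat.le_of_mul_le_mul_left h8 (by positivity)

end Pool.Agent.SN
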