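import Pool.Agent.H.MP_53e59f_lc.SN.Wd

/-!
# The first return

Let `z` have length `L` and at least `K + 1` returns, `t` the first one (`Finset.min'` or `Nat.find`). Then
`z = z.take t ++ z.drop t`, `z.take t` returns, and the returns `t' > t` of `z` give the returns `t' - t` of `z.drop t`
(cancellation: `List.perm_append_left_iff` with `(z.take t').map fst = (z.take t).map fst ++ ...` and
`(z.take t).map fst ~ (z.take t).map snd`).
-/

namespace Pool.Agent.SN

theorem C_fin (s L K : ℕ) : (C s L K).Finite :=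
  (W_fin (Fin s × Fin s) L).subset fun _ h => h.1

theorem RT_fin (s t : ℕ) : (RT s t).Finite :=
  (W_fin (Fin s × Fin s) t).subset fun _ h => h.1

private theorem First_split {α : Type} (z : List (α × α)) {t t' : ℕ} (h : Ret (z.take t))
    (h' : Ret (z.take t')) (ht : t ≤ t') : Ret ((z.drop t).take (t' - t)) := by
  have e1 : z.take t' = z.take t ++ (z.drop t).take (t' - t) := by
    rw [← List.take_add, Nat.add_sub_cancel' ht]
  unfold Ret at h h' ⊢
  rw [e1, List.map_append, List.map_append] at h'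
  have h2 : ((z.take t).map Prod.snd ++ ((z.drop t).take (t' - t)).map Prod.snd).Perm
      ((z.take t).map Prod.fst ++ ((z.drop t).take (t' - t)).map Prod.snd) :=
    h.symm.append_right _
  exact (List.perm_append_left_iff _).1 (h'.trans h2)

theorem C_sub (s L K : ℕ) : C s L (K + 1) ⊆
    ⋃ t ∈ Finset.Icc 1 L, Set.image2 (fun a b => a ++ b) (RT s t) (C s (L - t) K) := by
  classical
  rintro z ⟨hL, hK⟩
  unfold R at hK
  rw [hL] at hK
  obtain ⟨S, hS⟩ : ∃ S : Finset ℕ, S = (Finset.Icc 1 L).filter fun t => Ret (z.take t) :=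
    ⟨_, rfl⟩
  have hK' : K + 1 ≤ S.card := by
    rw [hS]
    exact hK
  have hmem : ∀ t, t ∈ S ↔ (1 ≤ t ∧ t ≤ L) ∧ Ret (z.take t) := by
    intro t
    rw [hS, Finset.mem_filter, Finset.mem_Icc]
  have hne : S.Nonempty := Finset.card_pos.1 (by omega)
  obtain ⟨t, ht, hmin⟩ : ∃ t ∈ S, ∀ t' ∈ S, t ≤ t' :=
    ⟨S.min' hne, S.min'_mem hne, fun t' h => S.min'_le t' h⟩
  obtain ⟨⟨h1, h2⟩, h3⟩ := (hmem t).1 ht
  rw [Set.mem_iUnion₂]
  refine ⟨t, Finset.mem_Icc.2 ⟨h1, h2⟩, z.take t, ⟨?_, h3⟩, z.drop t, ⟨?_, ?_⟩, ?_⟩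
  · rw [List.length_take, hL]
    exact min_eq_left h2
  · rw [List.length_drop, hL]
  · have hc : (S.erase t).card ≤ R (z.drop t) := by
      unfold R
      refine Finset.card_le_card_of_injOn (fun t' => t' - t) ?_ ?_
      · intro t' ht'
        rw [Finset.mem_coe, Finset.mem_erase] at ht'
        have h4 := hmin t' ht'.2
        obtain ⟨⟨h5, h6⟩, h7⟩ := (hmem t').1 ht'.2
        rw [Finset.mem_coe, Finset.mem_filter, Finset.mem_Icc, List.length_drop, hL]
        have h8 := ht'.1
        refine ⟨⟨?_, ?_⟩, First_split z h3 h7 h4⟩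
        · show 1 ≤ t' - t
          omega
        · show t' - t ≤ L - t
          omega
      · intro x hx y hy hxy
        rw [Finset.mem_coe, Finset.mem_erase] at hx hy
        have h4 := hmin x hx.2
        have h5 := hmin y hy.2
        simp only at hxy
        omega
    rw [Finset.card_erase_of_mem ht] at hc
    omega
  · exact List.take_append_drop t z

end Pool.Agent.SN
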