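import Pool.Agent.H.MP_53e59f_lc.SN.Wd
import Pool.Agent.H.MP_53e59f_lc.SN.Bit

/-!
# The number of returning lists

`s = 16 r`, `Fin s ≃ (Fin 4 → Bool) × Fin r` (same cardinality: `Fintype.equivOfCardEq`). A list `z` of length `t`
is mapped to: for each of the 4 bits the pair of bit strings `Fin t → Bool` of the first and of the second letters,
and the two functions `Fin t → Fin r`. This map is injective; if `z` returns then for each bit the two strings have the same
number of ones (`List.Perm.countP_eq`, or `List.Perm.count_eq` of the mapped lists). Hence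
`(RT s t).ncard ≤ (centralBinom t) ^ 4 * (r ^ t * r ^ t)`, with `bit_card` (black box).
-/

namespace Pool.Agent.SN

private theorem Four_count {α : Type} {t : ℕ} (f : Fin t → α) (p : α → Bool) :
    (List.ofFn f).countP p = (Finset.univ.filter fun i => p (f i) = true).card := by
  have h : ((List.ofFn f : List α) : Multiset α) = (Finset.univ : Finset (Fin t)).val.map f :=
    (Fin.univ_val_map f).symm
  have h1 : Multiset.countP (fun a => p a = true) ((List.ofFn f : List α) : Multiset α) =
      (List.ofFn f).countP p := by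
    rw [Multiset.coe_countP]
    congr 1
    funext a
    simp
  rw [← h1, h, Multiset.countP_map]
  rfl

theorem RT_le {s r : ℕ} (hs : s = 16 * r) (t : ℕ) :
    (RT s t).ncard ≤ Nat.centralBinom t ^ 4 * (r ^ t * r ^ t) := by
  classical
  obtain ⟨e⟩ : Nonempty (Fin s ≃ (Fin 4 → Bool) × Fin r) := by
    refine ⟨Fintype.equivOfCardEq ?_⟩
    rw [Fintype.card_fin, Fintype.card_prod, Fintype.card_fun, Fintype.card_fin, Fintype.card_fin,
      Fintype.card_bool, hs]
    norm_num
  obtain ⟨P, hP⟩ : ∃ P : Finset ((Fin t → Bool) × (Fin t → Bool)), P =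
      Finset.univ.filter fun p : (Fin t → Bool) × (Fin t → Bool) => ones p.1 = ones p.2 := ⟨_, rfl⟩
  obtain ⟨G, hG⟩ : ∃ G : Finset ((Fin 4 → (Fin t → Bool) × (Fin t → Bool)) ×
      ((Fin t → Fin r) × (Fin t → Fin r))), G =
      (Fintype.piFinset fun _ : Fin 4 => P) ×ˢ (Finset.univ : Finset ((Fin t → Fin r) × (Fin t → Fin r))) :=
    ⟨_, rfl⟩
  have hGc : G.card = Nat.centralBinom t ^ 4 * (r ^ t * r ^ t) := by
    rw [hG, Finset.card_product, Fintype.card_piFinset, Finset.prod_const, Finset.card_univ,
      Fintype.card_fin, hP, bit_card, Finset.card_univ, Fintype.card_prod, Fintype.card_fun,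
      Fintype.card_fin, Fintype.card_fin]
  let B : ((Fin 4 → (Fin t → Bool) × (Fin t → Bool)) × ((Fin t → Fin r) × (Fin t → Fin r))) →
      List (Fin s × Fin s) := fun q => List.ofFn fun i : Fin t =>
    (e.symm (fun j => (q.1 j).1 i, q.2.1 i), e.symm (fun j => (q.1 j).2 i, q.2.2 i))
  have hsub : RT s t ⊆ B '' (G : Set _) := by
    intro z hz
    obtain ⟨hlen, hret⟩ := hz
    subst hlen
    obtain ⟨g, hg⟩ : ∃ g : Fin z.length → Fin s × Fin s, List.ofFn g = z := ⟨z.get, List.ofFn_get z⟩
    refine ⟨(fun j => (fun i => (e (g i).1).1 j, fun i => (e (g i).2).1 j),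
      (fun i => (e (g i).1).2, fun i => (e (g i).2).2)), ?_, ?_⟩
    · rw [hG, Finset.mem_coe, Finset.mem_product]
      refine ⟨?_, Finset.mem_univ _⟩
      rw [Fintype.mem_piFinset]
      intro j
      rw [hP, Finset.mem_filter]
      refine ⟨Finset.mem_univ _, ?_⟩
      unfold Ret at hret
      have h1 := hret.countP_eq (fun a => (e a).1 j)
      rw [← hg, List.map_ofFn, List.map_ofFn, Four_count, Four_count] at h1
      unfold ones
      exact h1
    · change (List.ofFn fun i : Fin z.length => (e.symm (fun j => (e (g i).1).1 j, (e (g i).1).2),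
        e.symm (fun j => (e (g i).2).1 j, (e (g i).2).2))) = z
      have hfun : (fun i : Fin z.length => (e.symm (fun j => (e (g i).1).1 j, (e (g i).1).2),
        e.symm (fun j => (e (g i).2).1 j, (e (g i).2).2))) = g := by
        funext i
        exact Prod.ext (e.symm_apply_apply (g i).1) (e.symm_apply_apply (g i).2)
      exact Eq.trans (congrArg List.ofFn hfun) hg
  have h1 : (RT s t).ncard ≤ (B '' (G : Set ((Fin 4 → (Fin t → Bool) × (Fin t → Bool)) ×
      ((Fin t → Fin r) × (Fin t → Fin r))))).ncard :=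
    Set.ncard_le_ncard hsub (G.finite_toSet.image B)
  have h2 : (B '' (G : Set ((Fin 4 → (Fin t → Bool) × (Fin t → Bool)) ×
      ((Fin t → Fin r) × (Fin t → Fin r))))).ncard ≤ (G : Set ((Fin 4 → (Fin t → Bool) × (Fin t → Bool)) ×
      ((Fin t → Fin r) × (Fin t → Fin r)))).ncard := Set.ncard_image_le G.finite_toSet
  rw [Set.ncard_coe_finset, hGc] at h2
  exact h1.trans h2

end Pool.Agent.SN
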