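import Pool.Agent.H.MP_53e59f_lc.SN.Few
import Pool.Agent.H.MP_53e59f_lc.SN.Enc
import Pool.Agent.H.MP_53e59f_lc.SM.Fin

/-!
# The theorem
-/

namespace Pool.Agent.SN

open Pool.Agent.SF Pool.Agent.SM

theorem main (c : ℕ) (hc : 2 ≤ c) :
    ∃ f : Inst → Bool,
      Nonempty (Turing.TM2ComputableInPolyTime Inst.encode Computability.encodeBool f) ∧
      (∀ x : Inst, Sparse (c * Nat.log 2 x.encode.length) x.u x.v →
        (f x = true ↔ x.M.accepts ≠ {w | Sh x.u x.v w})) ∧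
      ∀ s n m : ℕ, 16 ∣ s →
        {p : List (Fin s) × List (Fin s) | p.1.length = n ∧ p.2.length = m ∧
          ∃ (q : ℕ) (M : DFA (Fin s) (Fin q)),
            ¬ (f ⟨s, q, M, p.1, p.2⟩ = true ↔ M.accepts ≠ {w | Sh p.1 p.2 w})}.ncard *
          (n + m + 1) ≤ s ^ (n + m) := by
  obtain ⟨f, h1, h2⟩ := SM.final c
  refine ⟨f, h1, h2, ?_⟩
  intro s n m hs
  refine le_trans (Nat.mul_le_mul_right _ (Set.ncard_le_ncard ?_
    (Bad_fin s n m (c * Nat.log 2 (2 * (n + m) + 2))))) (few (Nat.mul_le_mul_right _ hc) hs)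
  rintro ⟨u, v⟩ ⟨hu, hv, q, M, h3⟩
  refine ⟨hu, hv, ?_⟩
  by_contra hcon
  push Not at hcon
  refine h3 (h2 ⟨s, q, M, u, v⟩ ?_)
  intro i j _ _
  have h4 := hcon i j
  have h5 := enc_le ⟨s, q, M, u, v⟩
  have h6 : Nat.log 2 (2 * (n + m) + 2) ≤
      Nat.log 2 (Inst.encode ⟨s, q, M, u, v⟩).length := by
    refine Nat.log_mono_right ?_
    rw [← hu, ← hv]
    exact h5
  have h7 := Nat.mul_le_mul_left c h6
  show (Same u v i j).ncard ≤ _
  have h8 : (Same u v i j).ncard < c * Nat.log 2 (2 * (n + m) + 2) + 1 := h4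
  omega

end Pool.Agent.SN
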