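import Pool.Agent.H.MP_53e59f_lc.SN.Defs

/-!
# The number of lists of length n
-/

namespace Pool.Agent.SN

theorem W_fin (α : Type) [Finite α] (n : ℕ) : (W α n).Finite := List.finite_length_eq α n

theorem W_card (α : Type) [Finite α] (n : ℕ) : (W α n).ncard = Nat.card α ^ n := by
  classical
  have : Fintype α := Fintype.ofFinite α
  have h1 : (W α n).ncard = Nat.card (List.Vector α n) := (Nat.card_coe_set_eq (W α n)).symm
  rw [h1, Nat.card_eq_fintype_card, Nat.card_eq_fintype_card]
  exact card_vector n

end Pool.Agent.SN
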