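import Pool.Agent.H.MP_53e59f_lc.SN.Defs

/-!
# Windows

The list of pairs for the position `(i, j)`: the letters of `u` after `i` and the letters of `v` before `j` in
reversed order.

`win_ret`: with `u.take (i + t) = u.take i ++ A`,
`v.take j = v.take (j - t) ++ B`, membership in `Same` gives `t ≤ j`, `i + t ≤ u.length` and (cancellation) `A ~ B`; the first `t`
pairs are `A.zip B.reverse`.
-/

namespace Pool.Agent.SN

open Pool.Agent.SM

/-- The list of pairs at the position `(i, j)`. -/
def zw {α : Type} (u v : List α) (i j : ℕ) : List (α × α) := (u.drop i).zip (v.take j).reverse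

theorem win_ret {α : Type} {u v : List α} {i j t : ℕ} (hi : i ≤ u.length) (hj : j ≤ v.length)
    (ht : 1 ≤ t) (h : i + t ∈ Same u v i j) :
    t ≤ (zw u v i j).length ∧ Ret ((zw u v i j).take t) := by
  obtain ⟨h1, h2, _, h4⟩ := h
  have htj : t ≤ j := by omega
  have e1 : i + j - (i + t) = j - t := by omega
  rw [e1] at h4
  have eu : u.take (i + t) = u.take i ++ (u.drop i).take t := List.take_add
  have ev : v.take j = v.take (j - t) ++ (v.take j).drop (j - t) := by
    conv_lhs => rw [← List.take_append_drop (j - t) (v.take j)]
    rw [List.take_take, min_eq_left (by omega : j - t ≤ j)]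
  have hvl : (v.take j).length = j := by rw [List.length_take, min_eq_left hj]
  have hdl : (u.drop i).length = u.length - i := List.length_drop
  have hlen : (zw u v i j).length = min (u.length - i) j := by
    rw [zw, List.length_zip, List.length_reverse, hvl, hdl]
  refine ⟨by rw [hlen]; exact le_min (by omega) htj, ?_⟩
  have h5 : ((u.drop i).take t).Perm ((v.take j).drop (j - t)) := by
    rw [eu, ev, List.append_assoc] at h4
    have h6 := (List.perm_append_left_iff (u.take i)).1 h4
    have h7 : ((u.drop i).take t ++ v.take (j - t)).Perm
        ((v.take j).drop (j - t) ++ v.take (j - t)) := by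
      exact h6.trans List.perm_append_comm
    exact (List.perm_append_right_iff (v.take (j - t))).1 h7
  have h8 : (zw u v i j).take t =
      ((u.drop i).take t).zip ((v.take j).drop (j - t)).reverse := by
    rw [zw, List.zip, List.take_zipWith, List.take_reverse, hvl]
  have l1 : ((u.drop i).take t).length = t := by
    rw [List.length_take, hdl, min_eq_left (by omega)]
  have l2 : ((v.take j).drop (j - t)).reverse.length = t := by
    rw [List.length_reverse, List.length_drop, hvl]
    omega
  unfold Ret
  rw [h8, List.map_fst_zip (by rw [l1, l2]), List.map_snd_zip (by rw [l1, l2])]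
  exact h5.trans (List.reverse_perm _).symm

end Pool.Agent.SN
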