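import Pool.Agent.H.MP_53e59f_lc.SN.Win

/-!
# A good window

`exists_win`: let `i0` be the least element of `Same u v i j`, `j0 = i + j - i0`. Then `Same u v i0 j0 = Same u v i j`
(at least `⊇`; the defining permutations are transitive), and all elements other than `i0` are `i0 + t` with `t ≥ 1`,
so `t ↦ i0 + t` maps the finset in the definition of `R (zw u v i0 j0)` onto a superset of `Same u v i j \ {i0}` by
`win_ret` (black box).
-/

namespace Pool.Agent.SN

open Pool.Agent.SM

theorem exists_win {α : Type} {u v : List α} {i j K : ℕ} (h : K + 1 ≤ (Same u v i j).ncard) :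
    ∃ i0 j0, i0 ≤ u.length ∧ j0 ≤ v.length ∧ K ≤ R (zw u v i0 j0) := by
  classical
  have hne : (Same u v i j).Nonempty := by
    by_contra hcon
    rw [Set.not_nonempty_iff_eq_empty] at hcon
    rw [hcon, Set.ncard_empty] at h
    omega
  have hfin : (Same u v i j).Finite :=
    (Set.finite_Iic u.length).subset fun x hx => hx.1
  obtain ⟨i0, hi0⟩ : ∃ i0, i0 = sInf (Same u v i j) := ⟨_, rfl⟩
  have hmem : i0 ∈ Same u v i j := by
    rw [hi0]
    exact Nat.sInf_mem hne
  have hmin : ∀ x ∈ Same u v i j, i0 ≤ x := by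
    intro x hx
    rw [hi0]
    exact Nat.sInf_le hx
  obtain ⟨h1, h2, h3, h4⟩ := hmem
  have hmem' : i0 ∈ Same u v i j := ⟨h1, h2, h3, h4⟩
  refine ⟨i0, i + j - i0, h1, h3, ?_⟩
  have key : ∀ x ∈ Same u v i j, x ≠ i0 → ∃ t, 1 ≤ t ∧ t ≤ (zw u v i0 (i + j - i0)).length ∧
      Ret ((zw u v i0 (i + j - i0)).take t) ∧ i0 + t = x := by
    intro x hx hne'
    have hle := hmin x hx
    obtain ⟨g1, g2, g3, g4⟩ := hx
    have hlt : i0 < x := lt_of_le_of_ne hle (Ne.symm hne')
    have ht : 1 ≤ x - i0 := by omega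
    have hs : i0 + (x - i0) ∈ Same u v i0 (i + j - i0) := by
      have e1 : i0 + (x - i0) = x := by omega
      have e2 : i0 + (i + j - i0) - x = i + j - x := by omega
      rw [e1]
      refine ⟨g1, by omega, ?_, ?_⟩
      · rw [e2]
        exact g3
      · rw [e2]
        exact g4.trans h4.symm
    obtain ⟨k1, k2⟩ := win_ret h1 h3 ht hs
    exact ⟨x - i0, ht, k1, k2, by omega⟩
  unfold R
  have hsub : Same u v i j \ {i0} ⊆
      (((Finset.Icc 1 (zw u v i0 (i + j - i0)).length).filter
        fun t => Ret ((zw u v i0 (i + j - i0)).take t)).image (fun t => i0 + t) : Finset ℕ) := by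
    intro x hx
    obtain ⟨t, t1, t2, t3, t4⟩ := key x hx.1 (fun h' => hx.2 h')
    rw [Finset.mem_coe, Finset.mem_image]
    exact ⟨t, Finset.mem_filter.2 ⟨Finset.mem_Icc.2 ⟨t1, t2⟩, t3⟩, t4⟩
  have hc1 : (Same u v i j \ {i0}).ncard = (Same u v i j).ncard - 1 :=
    Set.ncard_diff_singleton_of_mem hmem'
  have hc2 := Set.ncard_le_ncard hsub (Finset.finite_toSet _)
  rw [Set.ncard_coe_finset] at hc2
  have hc3 := Finset.card_image_le (s := (Finset.Icc 1 (zw u v i0 (i + j - i0)).length).filter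
        fun t => Ret ((zw u v i0 (i + j - i0)).take t)) (f := fun t => i0 + t)
  have hc4 : K ≤ (Same u v i j \ {i0}).ncard := by omega
  refine hc4.trans (hc2.trans (hc3.trans (le_of_eq ?_)))
  congr!

end Pool.Agent.SN
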